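import Mathlib

set_option autoImplicit false

namespace Pool.Agent.H.MP_9fae52_an
open Set Real

abbrev E := EuclideanSpace ℝ (Fin 3)

lemma dP (a b c d e f : ℝ) : dist (!₂[a, b, c] : E) !₂[d, e, f] = √((a - d) ^ 2 + (b - e) ^ 2 + (c - f) ^ 2) := by
  simp [EuclideanSpace.dist_eq, Fin.sum_univ_three, Real.dist_eq]

lemma var {A : ℝ → E} {m : ℝ → ℝ} (hm : Monotone m) (h : ∀ s t, s ≤ t → dist (A t) (A s) ≤ m t - m s) :
    eVariationOn A (Icc 0 1) ≤ ENNReal.ofReal (m 1 - m 0) := by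
  have := (hm.monotoneOn univ).eVariationOn_le (mem_univ 0) (mem_univ 1)
  rw [univ_inter] at this
  refine le_trans (iSup_mono fun p => Finset.sum_le_sum fun i _ => ?_) this
  rw [edist_dist, edist_dist]
  exact ENNReal.ofReal_le_ofReal ((h _ _ (p.2.2.1 i.le_succ)).trans (le_abs_self _))

noncomputable def Q (θ a : ℝ) : E :=
  !₂[1 - cos θ - sin θ / 3 + 2 * a / 39, 1 - cos θ + sin θ / 3 + 31 * a / 39, 4 * sin θ / 3 + 58 * a / 39]

noncomputable def R (θ a : ℝ) : E :=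
  !₂[cos θ + sin θ / 3 - 2 * a / 39, 1 - cos θ + sin θ / 3 + 31 * a / 39, 2 - 4 * sin θ / 3 - 58 * a / 39]

lemma dR (θ a φ b : ℝ) : dist (R θ a) (R φ b) = dist (Q θ a) (Q φ b) := by
  rw [R, R, Q, Q, dP, dP]; congr 1; ring

lemma dQ {θ a φ b : ℝ} (h1 : φ ≤ θ) (h2 : b ≤ a) :
    dist (Q θ a) (Q φ b) ≤ 1.41422 * θ + 1.68706 * a - (1.41422 * φ + 1.68706 * b) := by
  have e1 : dist (Q θ a) (Q φ a) ≤ 1.41422 * (θ - φ) := by
    rw [Q, Q, dP, sqrt_le_left (by nlinarith)]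
    have := one_sub_sq_div_two_le_cos (x := θ - φ)
    rw [cos_sub] at this
    nlinarith [sin_sq_add_cos_sq θ, sin_sq_add_cos_sq φ, sq_nonneg (θ - φ)]
  have e2 : dist (Q φ a) (Q φ b) ≤ 1.68706 * (a - b) := by
    rw [Q, Q, dP, sqrt_le_left (by nlinarith)]
    nlinarith [sq_nonneg (a - b)]
  linarith [dist_triangle (Q θ a) (Q φ a) (Q φ b)]

noncomputable def q (p : ℝ) : ℝ := (√(1078 ^ 2 + 3368 * 961 * (1 - p ^ 2)) - 1078) / 3368

lemma q_eq {p : ℝ} (h1 : -1 ≤ p) (h2 : p ≤ 1) : 0 ≤ q p ∧ 3368 * q p ^ 2 + 2156 * q p = 961 * (1 - p ^ 2) := by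
  have h : 0 ≤ 1 - p ^ 2 := by nlinarith
  have h3 := sq_sqrt (by positivity : (0 : ℝ) ≤ 1078 ^ 2 + 3368 * 961 * (1 - p ^ 2))
  refine ⟨div_nonneg (sub_nonneg.2 (le_sqrt_of_sq_le (by linarith))) (by norm_num), ?_⟩
  unfold q
  linear_combination h3 / 3368

noncomputable def pp (t : ℝ) : ℝ := max (-1) (min 1 (3 - 6 * t))
noncomputable def aa (t : ℝ) : ℝ := (1 - pp t + q (pp t)) / 2
noncomputable def th (t : ℝ) : ℝ := arcsin (5 / 13) * min (3 * t) 1

lemma pp_mem (t : ℝ) : -1 ≤ pp t ∧ pp t ≤ 1 := ⟨le_max_left _ _, max_le (by norm_num) (min_le_left _ _)⟩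

lemma aa_mono : Monotone aa := fun s t h => by
  have h1 : pp t ≤ pp s := max_le_max le_rfl (min_le_min le_rfl (by linarith))
  obtain ⟨a, b⟩ := pp_mem s
  obtain ⟨c, d⟩ := pp_mem t
  obtain ⟨e, f⟩ := q_eq a b
  obtain ⟨g, i⟩ := q_eq c d
  unfold aa
  by_contra hc
  have h2 : pp s - pp t < q (pp s) - q (pp t) := by linarith
  nlinarith [mul_nonneg (sub_nonneg.2 h1) (by linarith : 0 ≤ pp s + pp t + 2),
    mul_nonneg (by linarith : 0 ≤ q (pp s) - q (pp t)) (add_nonneg e g)]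

lemma th_mono : Monotone th := fun s t h =>
  mul_le_mul_of_nonneg_left (min_le_min (by linarith) le_rfl) (arcsin_nonneg.2 (by norm_num))

lemma lo {t : ℝ} (h : t ≤ 1 / 3) : aa t = 0 := by
  rw [aa, pp, min_eq_left (by linarith), max_eq_right (by norm_num), q]; norm_num

lemma hi {t : ℝ} (h : 2 / 3 ≤ t) : aa t = 1 := by
  rw [aa, pp, max_eq_left (min_le_of_right_le (by linarith)), q]; norm_num

lemma th1 {t : ℝ} (h : 1 / 3 ≤ t) : sin (th t) = 5 / 13 ∧ cos (th t) = 12 / 13 := by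
  rw [th, min_eq_right (by linarith), mul_one, sin_arcsin (by norm_num) (by norm_num), cos_arcsin]
  exact ⟨rfl, by rw [sqrt_eq_iff_mul_self_eq (by norm_num) (by norm_num)]; norm_num⟩

theorem up : ∃ A B : ℝ → E, Continuous A ∧ Continuous B ∧ (∀ t, dist (A t) (B t) = √2) ∧ A 0 = !₂[0, 0, 0] ∧
    B 0 = !₂[1, 1, 0] ∧ A 1 = !₂[0, 1, 2] ∧ B 1 = !₂[1, 0, 2] ∧
    eVariationOn A (Icc 0 1) + eVariationOn B (Icc 0 1) ≤ ENNReal.ofReal 4.492 := by
  have ca : Continuous aa := by unfold aa pp q; fun_prop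
  have ct : Continuous th := by unfold th; fun_prop
  have t0 : th 0 = 0 := by simp [th]
  have a0 := lo (t := 0) (by norm_num)
  have a1 := hi (t := 1) (by norm_num)
  obtain ⟨s1, c1⟩ := th1 (t := 1) (by norm_num)
  have mm : Monotone fun t => 1.41422 * th t + 1.68706 * aa t := fun s t h => by
    have := th_mono h; have := aa_mono h; simp only; linarith
  refine ⟨fun t => Q (th t) (aa t), fun t => R (th (1 - t)) (aa (1 - t)), by unfold Q; fun_prop, by unfold R; fun_prop,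
    fun t => ?_, by simp [Q, t0, a0], by simp only [R, sub_zero, s1, c1, a1]; norm_num,
    by simp only [Q, s1, c1, a1]; norm_num, by simp [R, t0, a0], ?_⟩
  · simp only [Q, R, dP]
    congr 1
    rcases le_total t (1 / 3) with h | h
    · obtain ⟨s, c⟩ := th1 (t := 1 - t) (by linarith)
      rw [s, c, lo h, hi (by linarith)]
      linear_combination 2 * sin_sq_add_cos_sq (th t)
    rcases le_total (2 / 3) t with h' | h'
    · obtain ⟨s, c⟩ := th1 h
      rw [s, c, hi h', lo (by linarith)]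
      linear_combination 2 * sin_sq_add_cos_sq (th (1 - t))
    obtain ⟨s, c⟩ := th1 h
    obtain ⟨s', c'⟩ := th1 (t := 1 - t) (by linarith)
    have e1 : pp t = 3 - 6 * t := by rw [pp, min_eq_right (by linarith), max_eq_right (by linarith)]
    have e2 : pp (1 - t) = -pp t := by rw [e1, pp, min_eq_right (by linarith), max_eq_right (by linarith)]; ring
    have e3 : q (-pp t) = q (pp t) := by simp [q]
    rw [s, c, s', c', aa, aa, e2, e3]
    linear_combination (q_eq (pp_mem t).1 (pp_mem t).2).2 / 1521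
  · have h1 := var (A := fun t => Q (th t) (aa t)) mm fun s t h => dQ (th_mono h) (aa_mono h)
    have h2 := var (A := fun t => R (th (1 - t)) (aa (1 - t))) (m := fun t => -(1.41422 * th (1 - t) + 1.68706 * aa (1 - t)))
      (fun s t h => neg_le_neg (mm (by linarith))) fun s t h => by
        rw [dR, dist_comm]
        linarith [dQ (th_mono (by linarith : 1 - t ≤ 1 - s)) (aa_mono (by linarith : 1 - t ≤ 1 - s))]
    have h3 : th 1 ≤ 0.395 := by
      rw [th, min_eq_right (by norm_num), mul_one, arcsin_le_iff_le_sin' ⟨by linarith [pi_pos], by linarith [pi_gt_three]⟩]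
      exact le_trans (by norm_num) (sin_ge_sub_cube (by norm_num))
    simp only [sub_self, sub_zero, t0, a0, a1] at h1 h2
    refine (add_le_add (h1.trans (ENNReal.ofReal_le_ofReal (q := 2.246) (by linarith)))
      (h2.trans (ENNReal.ofReal_le_ofReal (q := 2.246) (by linarith)))).trans ?_
    rw [← ENNReal.ofReal_add (by norm_num) (by norm_num)]; norm_num

lemma asn {y : ℝ} (hy : 0 ≤ y) : sin y + sin y ^ 3 / 6 ≤ y := by
  have := monotone_of_hasDerivAt_nonneg (f := fun y => y - (sin y + sin y ^ 3 / 6))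
    (f' := fun y => 1 - (cos y + 3 * sin y ^ 2 * cos y / 6))
    (fun x => (hasDerivAt_id x).sub ((hasDerivAt_sin x).add (((hasDerivAt_sin x).pow 3).div_const 6))) (fun x => by
      have := mul_nonneg (sub_nonneg.2 (cos_le_one x)) (mul_nonneg (sub_nonneg.2 (cos_le_one x))
        (by linarith [neg_one_le_cos x] : 0 ≤ cos x + 2))
      simp only [Pi.zero_apply, sin_sq]
      nlinarith) hy
  simpa using this

lemma low {c σ α : ℝ} (h : σ ^ 2 + c ^ 2 = 1) (hσ : 1 / 4 ≤ |σ|) (a0 : 0 ≤ α) (a1 : α ≤ π) (ha : cos α = (1 + c) / 2) :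
    2.24625 ≤ √2 * α + √(5 - 4 * σ) := by
  have s0 : 0 ≤ sin (α / 2) := sin_nonneg_of_nonneg_of_le_pi (by linarith) (by linarith)
  have h1 := asn (y := α / 2) (by linarith)
  have h2 : sin (α / 2) ^ 2 = (1 - c) / 4 := by
    rw [sin_sq_eq_half_sub, mul_div_cancel₀ _ two_ne_zero, ha]; ring
  have r := sq_sqrt (zero_le_two (α := ℝ))
  have r0 := sqrt_nonneg 2
  obtain ⟨u, hu⟩ : ∃ u, u = √2 * sin (α / 2) := ⟨_, rfl⟩
  have u0 : 0 ≤ u := by rw [hu]; positivity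
  have u2 : u ^ 2 = (1 - c) / 2 := by rw [hu, mul_pow, r, h2]; ring
  have h3 : 2 * u + u ^ 3 / 6 ≤ √2 * α := by
    have := mul_le_mul_of_nonneg_left h1 r0
    have e : u ^ 3 = 2 * (√2 * sin (α / 2) ^ 3) := by rw [hu]; linear_combination (√2 * sin (α / 2) ^ 3) * r
    linarith
  have h4 : σ ^ 2 = 4 * u ^ 2 * (1 - u ^ 2) := by rw [u2]; linarith
  have h5 : 1 / 16 ≤ σ ^ 2 := by rw [← sq_abs]; nlinarith
  have u1 : u ≤ 1 := by
    by_contra hc
    nlinarith [mul_pos (by nlinarith : 0 < u ^ 2) (by nlinarith : 0 < u ^ 2 - 1)]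
  have u8 : 1 / 8 ≤ u := by
    by_contra hc
    nlinarith [sq_nonneg (u ^ 2)]
  have h6 : σ ≤ 2 * u * (1 - u ^ 2 / 2 - u ^ 4 / 8) := by
    refine (abs_le_of_sq_le_sq' ?_ (mul_nonneg (by linarith) ?_)).2
    · rw [h4]
      have : 0 ≤ u ^ 8 / 2 + u ^ 10 / 16 := by positivity
      linarith [show (2 * u * (1 - u ^ 2 / 2 - u ^ 4 / 8)) ^ 2 = 4 * u ^ 2 * (1 - u ^ 2) + (u ^ 8 / 2 + u ^ 10 / 16) by ring]
    · linarith [pow_le_one₀ u0 u1 (n := 2), pow_le_one₀ u0 u1 (n := 4)]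
  have h7 : 2.24625 - 2 * u - u ^ 3 / 6 ≤ √(5 - 4 * σ) := by
    refine le_sqrt_of_sq_le ?_
    obtain ⟨w, rfl⟩ : ∃ w, u = w + 0.38 := ⟨u - 0.38, by ring⟩
    have w0 : 0 ≤ w + 0.255 := by linarith
    have w1 : 0 ≤ 0.62 - w := by linarith
    have g := mul_nonneg (sq_nonneg (w ^ 2)) (show 0 ≤ 1.173 + 2.81 / 3 * w - w ^ 2 / 36 by nlinarith)
    rcases le_total w 0 with w2 | w2
    · nlinarith [mul_nonneg (sq_nonneg w) w0, sq_nonneg w, sq_nonneg (w ^ 2)]
    · nlinarith [mul_nonneg (sq_nonneg w) w2, sq_nonneg (w - 0.015), sq_nonneg w, sq_nonneg (w ^ 2)]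
  linarith

lemma adm {c σ : ℝ} (h : σ ^ 2 + c ^ 2 = 1) {s t : ℝ → ℝ} (cs : ContinuousOn s (Icc 0 1)) (ct : ContinuousOn t (Icc 0 1))
    (ms : MonotoneOn s (Icc 0 1)) (mt : MonotoneOn t (Icc 0 1)) (s0 : s 0 = 0) (t0 : t 0 = 0) (s1 : s 1 = 1) (t1 : t 1 = 1)
    (hd : ∀ x ∈ Icc (0 : ℝ) 1, dist (AffineMap.lineMap (!₂[0, 0, 0] : E) !₂[0, c, 2 - σ] (s x))
      (AffineMap.lineMap (!₂[1, c, σ] : E) !₂[1, 0, 2] (t x)) = √2) : 1 / 4 ≤ |σ| := by
  obtain ⟨x, hx, e⟩ := intermediate_value_Icc zero_le_one (cs.add ct) (show (1 / 10 : ℝ) ∈ _ from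
    ⟨by simp [s0, t0], by simp only [Pi.add_apply, s1, t1]; norm_num⟩)
  have a : 0 ≤ s x := s0 ▸ ms (left_mem_Icc.2 zero_le_one) hx hx.1
  have b : 0 ≤ t x := t0 ▸ mt (left_mem_Icc.2 zero_le_one) hx hx.1
  have := hd x hx
  rw [EuclideanSpace.dist_eq, sqrt_inj (by positivity) zero_le_two] at this
  simp [Fin.sum_univ_three, AffineMap.lineMap_apply, Real.dist_eq] at this
  simp only [Pi.add_apply] at e
  by_contra hc
  rw [not_le, abs_lt] at hc
  obtain ⟨d, hd⟩ : ∃ d, d = (t x - s x) * (2 - σ) := ⟨_, rfl⟩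
  have d1 : |d| ≤ 0.225 := by
    rw [hd, abs_mul, show (0.225 : ℝ) = 1 / 10 * (9 / 4) by norm_num]
    exact mul_le_mul (abs_le.2 ⟨by linarith, by linarith⟩) (abs_le.2 ⟨by linarith, by linarith⟩) (abs_nonneg _)
      (by norm_num)
  rw [abs_le] at d1
  have e2 : 0.81 * (1 - σ ^ 2) + (σ + d) ^ 2 = 1 := by
    rw [hd, show t x = 1 / 10 - s x by linarith] at *
    linear_combination this - 0.81 * h
  nlinarith [mul_nonneg (by linarith : 0 ≤ 0.475 - (σ + d)) (by linarith : 0 ≤ 0.475 + (σ + d)), sq_nonneg σ]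

lemma ang (a b c d e f g i j : ℝ) (h1 : (a - d) ^ 2 + (b - e) ^ 2 + (c - f) ^ 2 = 2)
    (h2 : (g - d) ^ 2 + (i - e) ^ 2 + (j - f) ^ 2 = 2) :
    cos (EuclideanGeometry.angle (!₂[a, b, c] : E) !₂[d, e, f] !₂[g, i, j]) =
      ((a - d) * (g - d) + (b - e) * (i - e) + (c - f) * (j - f)) / 2 := by
  rw [EuclideanGeometry.angle, InnerProductGeometry.cos_angle, ← dist_eq_norm_vsub, ← dist_eq_norm_vsub, dP, dP, h1, h2,
    mul_self_sqrt zero_le_two]
  simp [PiLp.inner_apply, Fin.sum_univ_three]; ring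

end Pool.Agent.H.MP_9fae52_an
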